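import Pool.Agent.Lib.MP_6e5a6a_al.Surj
import Pool.Agent.Lib.MP_6e5a6a_al.Rep
import Pool.Agent.Lib.MP_6e5a6a_al.Hopf

/-!
# MP_6e5a6a_al: enveloping algebras of metabelian Lie algebras

Over a field of characteristic zero every finite-dimensional metabelian Lie algebra is
determined by its universal enveloping algebra.
-/

open MP6e5a6a

namespace Pool.Agent.Results.MP_6e5a6a_al.Metabelian

universe u v w

/-- Let `F` be a field of characteristic zero, `L` a finite-dimensional Lie algebra over `F` with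
`[[L, L], [L, L]] = 0` and `H` any Lie algebra over `F`. If the enveloping algebras of `L` and `H`
are isomorphic as `F`-algebras, then `L` and `H` are isomorphic as Lie algebras. -/
theorem result :
    ∀ (F : Type u) [Field F] [CharZero F] (L : Type v) [LieRing L] [LieAlgebra F L]
      [FiniteDimensional F L],
      ⁅⁅(⊤ : LieIdeal F L), (⊤ : LieIdeal F L)⁆, ⁅(⊤ : LieIdeal F L), (⊤ : LieIdeal F L)⁆⁆ = ⊥ →
      ∀ (H : Type w) [LieRing H] [LieAlgebra F H],
        Nonempty (UniversalEnvelopingAlgebra F L ≃ₐ[F] UniversalEnvelopingAlgebra F H) →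
          Nonempty (L ≃ₗ⁅F⁆ H) := by
  intro F _ _ L _ _ _ hL H _ _ ⟨e⟩
  have hsolv : LieAlgebra.IsSolvable L := by
    apply LieAlgebra.IsSolvable.mk (R := F) (k := 2)
    simp only [LieAlgebra.derivedSeriesOfIdeal_succ, LieAlgebra.derivedSeriesOfIdeal_zero]
    exact hL
  have hmeta : ∀ a b c d : L, ⁅⁅a, b⁆, ⁅c, d⁆⁆ = 0 := by
    intro a b c d
    have h : ⁅⁅a, b⁆, ⁅c, d⁆⁆ ∈ ⁅⁅(⊤ : LieIdeal F L), (⊤ : LieIdeal F L)⁆,
        ⁅(⊤ : LieIdeal F L), (⊤ : LieIdeal F L)⁆⁆ :=
      LieSubmodule.lie_mem_lie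
        (LieSubmodule.lie_mem_lie (LieSubmodule.mem_top a) (LieSubmodule.mem_top b))
        (LieSubmodule.lie_mem_lie (LieSubmodule.mem_top c) (LieSubmodule.mem_top d))
    rw [hL] at h
    exact (LieSubmodule.mem_bot _).1 h
  obtain ⟨e', he'⟩ := exists_normalized e
  obtain ⟨θ, hθ⟩ := exists_surj hmeta (fun {κ} _ _ B => exists_retraction hmeta B) e' he'
  have hinj := hopf e' θ hθ
  exact ⟨(LieEquiv.ofBijective θ ⟨hinj, hθ⟩).symm⟩

end Pool.Agent.Results.MP_6e5a6a_al.Metabelian
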